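import Mathlib
import Pool.Agent.Results.MP_382e70_an.Counter

namespace Pool.Agent.Results.MP_5c86b6_an.Counter

open Polynomial

/-- A (symmetric) polynomial hypergroup with `a₀ a₁ < 2 c₁ c₂`, i.e. `h(2) < 2`. -/
theorem result : ∃ (a b c : ℕ → ℝ) (P : ℕ → ℝ[X]),
    (∀ n, 0 < a n) ∧ (∀ n, b n = 0) ∧ (∀ n, 1 ≤ n → 0 < c n) ∧ a 0 + b 0 = 1 ∧
    (∀ n, 1 ≤ n → a n + b n + c n = 1) ∧ P 0 = 1 ∧ P 1 = C (1 / a 0) * (X - C (b 0)) ∧
    (∀ n, 1 ≤ n → X * P n = C (a n) * P (n + 1) + C (b n) * P n + C (c n) * P (n - 1)) ∧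
    (∀ m n, ∃ (N : ℕ) (g : ℕ → ℝ), (∀ k, 0 ≤ g k) ∧
      P m * P n = ∑ k ∈ Finset.range N, C (g k) * P k) ∧
    a 0 * a 1 < 2 * (c 1 * c 2) := by
  open Pool.Agent.Results.MP_382e70_an.Counter in
  refine ⟨a, fun _ => 0, c, P, a_pos, fun _ => rfl, fun n hn => ?_, by simp [a, c0],
    fun n _ => by simp [a], rfl, by simp [a, c0, P], fun n _ => ?_, fun m n => ?_, ?_⟩
  · obtain ⟨k, rfl⟩ := Nat.exists_eq_add_of_le' hn
    exact (Pool.Agent.Results.MP_382e70_an.Counter.c_bd k).1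
  · simpa [smul_eq_C_mul] using Pool.Agent.Results.MP_382e70_an.Counter.rec_P n
  · obtain ⟨N, g, h, e⟩ := Pool.Agent.Results.MP_382e70_an.Counter.all_K m n
    exact ⟨N, g, h, by simpa only [smul_eq_C_mul] using e⟩
  · open Pool.Agent.Results.MP_382e70_an.Counter in simp [a, c, e]
    norm_num

end Pool.Agent.Results.MP_5c86b6_an.Counter
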